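import Pool.Agent.W_e01c10_h95.Structure

/-!
# For `r < 2 / c` some number is admissible
-/

namespace W_e01c10_h95

open W_e01c10_h65

variable {V : Type}

/-- The number of the out-neighbours in a set. -/
theorem ch_set [Fintype V] {c : ℝ} (hc : CH c) {D : V → V → Prop} (hO : Oriented D)
    (hT : ¬ HasTriangle D) {B : Set V} (hB : B.Nonempty) {e : ℕ}
    (h : ∀ b ∈ B, e ≤ ({y | D b y} ∩ B).ncard) : (e : ℝ) < c * B.ncard := by
  classical
  have hne : Nonempty B := hB.to_subtype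
  by_contra hcon
  push Not at hcon
  have hcard : (Fintype.card B : ℝ) = B.ncard := by
    rw [← Nat.card_eq_fintype_card, Nat.card_coe_set_eq]
  have hdeg : ∀ x : B, c * Fintype.card B ≤ outdeg (fun x y : B => D x y) x := by
    intro x
    rw [hcard]
    refine hcon.trans ?_
    have h1 := h x x.2
    have h2 : outdeg (fun x y : B => D x y) x = ({y | D x y} ∩ B).ncard := by
      unfold outdeg
      rw [← Set.ncard_image_of_injective _ Subtype.val_injective]
      congr 1
      ext y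
      simp only [Set.mem_image, Set.mem_setOf_eq, Subtype.exists, exists_and_left, exists_prop,
        exists_eq_right_right, Set.mem_inter_iff]
    rw [h2]
    exact_mod_cast h1
  rcases hc B (fun x y => D x y) (fun x hx => hO _ _ hx hx) hdeg with
    ⟨x, y, h1, h2⟩ | ⟨x, y, z, h1, h2, h3⟩
  · exact hO _ _ h1 h2
  · exact hT ⟨x, y, z, h1, h2, h3⟩

theorem adm_nonempty {r : ℝ} (h0 : 0 < r) (h : r < 2 / cch) : (Adm r).Nonempty := by
  have hc0 : 0 < cch := by have := third_le; linarith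
  have h1 : cch < 2 / r := by
    rw [lt_div_iff₀ hc0] at h
    rw [lt_div_iff₀ h0]
    linarith
  obtain ⟨c, hc, hcr⟩ := exists_lt_of_csInf_lt ⟨1, CH_one⟩ (show sInf {c | CH c} < 2 / r from h1)
  have hc3 : 1 / 3 ≤ c := by
    by_contra hcon
    exact not_CH (not_le.1 hcon) hc
  rw [lt_div_iff₀ h0] at hcr
  have hcr0 : 0 < c * r := by positivity
  refine ⟨1 - c * r / 2, by linarith, by linarith, ?_⟩
  intro V _ D d hd hO hD hn hk
  subst hD
  by_contra hT
  obtain ⟨S, hS, hcut⟩ := exists_cut hO hd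
  unfold StrongOff at hcut
  push Not at hcut
  obtain ⟨x, y, hx, hy, hxy⟩ := hcut
  set R : V → V → Prop := fun u v => D u v ∧ u ∉ S ∧ v ∉ S with hR
  have hd0 : (0 : ℝ) < semideg D := by exact_mod_cast hd
  have hkd : (conn D : ℝ) < semideg D := by
    refine hk.trans_lt ?_
    nlinarith
  have hkd' : conn D ≤ semideg D := by exact_mod_cast hkd.le
  obtain ⟨B, hB⟩ : ∃ B : Set V, ∀ z, z ∈ B ↔ Relation.ReflTransGen R x z :=
    ⟨{z | Relation.ReflTransGen R x z}, fun _ => Iff.rfl⟩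
  obtain ⟨A, hA⟩ : ∃ A : Set V, ∀ z, z ∈ A ↔ z ∉ S ∧ ¬ Relation.ReflTransGen R x z :=
    ⟨{z | z ∉ S ∧ ¬ Relation.ReflTransGen R x z}, fun _ => Iff.rfl⟩
  have hBS : ∀ z ∈ B, z ∉ S := by
    intro z hz
    rcases Relation.ReflTransGen.cases_tail ((hB z).1 hz) with h2 | ⟨w, _, h2⟩
    · rw [h2]; exact hx
    · exact h2.2.2
  have hB1 : (((semideg D - conn D : ℕ) : ℝ)) < c * B.ncard := by
    refine ch_set hc hO hT ⟨x, (hB x).2 Relation.ReflTransGen.refl⟩ fun b hb => ?_
    have h2 : {y | D b y} ⊆ ({y | D b y} ∩ B) ∪ S := by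
      intro z hz
      by_cases hzS : z ∈ S
      · exact Or.inr hzS
      · exact Or.inl ⟨hz, (hB z).2 (Relation.ReflTransGen.tail ((hB b).1 hb)
          ⟨hz, hBS b hb, hzS⟩)⟩
    have h3 := (Set.ncard_le_ncard h2 (Set.toFinite _)).trans (Set.ncard_union_le _ _)
    have h4 := semideg_le_out D b
    unfold outdeg at h4
    omega
  have hA1 : (((semideg D - conn D : ℕ) : ℝ)) < c * A.ncard := by
    have hO' : Oriented (fun u v => D v u) := fun u v h h' => hO _ _ h h'
    have hT' : ¬ HasTriangle (fun u v => D v u) := fun ⟨u, v, w, h1, h2, h3⟩ =>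
      hT ⟨v, u, w, h1, h3, h2⟩
    refine ch_set hc hO' hT' ⟨y, (hA y).2 ⟨hy, hxy⟩⟩ fun b hb => ?_
    have hb' := (hA b).1 hb
    have h2 : {y | D y b} ⊆ ({y | D y b} ∩ A) ∪ S := by
      intro z hz
      by_cases hzS : z ∈ S
      · exact Or.inr hzS
      · exact Or.inl ⟨hz, (hA z).2 ⟨hzS, fun hw => hb'.2 (hw.tail ⟨hz, hzS, hb'.1⟩)⟩⟩
    have h3 := (Set.ncard_le_ncard h2 (Set.toFinite _)).trans (Set.ncard_union_le _ _)
    have h4 := semideg_le_in D b
    unfold indeg at h4
    omega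
  have hAB : (A.ncard + B.ncard : ℝ) ≤ Fintype.card V := by
    have h2 : A.ncard + B.ncard ≤ Fintype.card V := by
      rw [← Set.ncard_union_eq _ (Set.toFinite _) (Set.toFinite _), ← Nat.card_eq_fintype_card,
        ← Set.ncard_univ]
      · exact Set.ncard_le_ncard (Set.subset_univ _) (Set.toFinite _)
      · rw [Set.disjoint_left]
        intro z hz hz'
        exact ((hA z).1 hz).2 ((hB z).1 hz')
    exact_mod_cast h2
  rw [Nat.cast_sub hkd'] at hA1 hB1
  have h5 : c * (A.ncard + B.ncard : ℝ) ≤ c * (r * semideg D) :=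
    mul_le_mul_of_nonneg_left (hAB.trans hn) (by linarith)
  nlinarith

end W_e01c10_h95
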