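import Pool.Agent.W_e01c10_h65.Near

/-!
# Cuts, lexicographic products and blow-ups
-/

namespace W_e01c10_h95

open W_e01c10_h65

variable {V W : Type}

/-! ## General facts -/

theorem semideg_le_out [Finite V] (D : V → V → Prop) (x : V) : semideg D ≤ outdeg D x :=
  (ciInf_le (OrderBot.bddBelow _) x).trans (min_le_left _ _)

theorem semideg_le_in [Finite V] (D : V → V → Prop) (x : V) : semideg D ≤ indeg D x :=
  (ciInf_le (OrderBot.bddBelow _) x).trans (min_le_right _ _)

theorem le_semideg [Nonempty V] (D : V → V → Prop) {m : ℕ}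
    (h : ∀ x, m ≤ outdeg D x ∧ m ≤ indeg D x) : m ≤ semideg D :=
  le_ciInf fun x => le_min (h x).1 (h x).2

theorem nonempty_of_semideg {D : V → V → Prop} (h : 1 ≤ semideg D) : Nonempty V := by
  by_contra hV
  rw [not_nonempty_iff] at hV
  unfold semideg at h
  rw [iInf_of_isEmpty, Nat.sInf_empty] at h
  omega

theorem exists_out [Finite V] {D : V → V → Prop} {x : V} (h : 1 ≤ outdeg D x) : ∃ y, D x y := by
  unfold outdeg at h
  exact (Set.ncard_pos (Set.toFinite _)).1 h

theorem exists_in [Finite V] {D : V → V → Prop} {x : V} (h : 1 ≤ indeg D x) : ∃ y, D y x := by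
  unfold indeg at h
  exact (Set.ncard_pos (Set.toFinite _)).1 h

/-- There is a cut with `conn D` vertices. -/
theorem exists_cut [Finite V] {D : V → V → Prop} (hO : Oriented D) (h : 1 ≤ semideg D) :
    ∃ S : Set V, S.ncard = conn D ∧ ¬ StrongOff D S := by
  obtain ⟨x⟩ := nonempty_of_semideg h
  obtain ⟨y, hy⟩ := exists_out (h.trans (semideg_le_out D x))
  have hne : ({m | ∃ S : Set V, S.ncard = m ∧ ¬ StrongOff D S} : Set ℕ).Nonempty := by
    refine ⟨_, ({x, y} : Set V)ᶜ, rfl, fun hs => ?_⟩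
    have h1 := hs y x (by simp) (by simp)
    have key : ∀ z, Relation.ReflTransGen (fun u v => D u v ∧ u ∉ ({x, y} : Set V)ᶜ ∧
        v ∉ ({x, y} : Set V)ᶜ) y z → z = y := by
      intro z hz
      induction hz with
      | refl => rfl
      | @tail b c _ hbc ih =>
        subst ih
        obtain ⟨h2, _, h3⟩ := hbc
        rw [Set.mem_compl_iff, not_not] at h3
        rcases h3 with h3 | h3
        · rw [h3] at h2
          exact absurd h2 (hO _ _ hy)
        · exact h3
    have := key x h1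
    rw [this] at hy
    exact hO _ _ hy hy
  exact Nat.sInf_mem hne

theorem conn_le {D : V → V → Prop} {S : Set V} (h : ¬ StrongOff D S) : conn D ≤ S.ncard :=
  Nat.sInf_le ⟨S, rfl, h⟩

theorem conn_le_out [Finite V] {D : V → V → Prop} (hO : Oriented D) (h : 1 ≤ semideg D) (x : V) :
    conn D ≤ outdeg D x := by
  refine conn_le (S := {y | D x y}) fun hs => ?_
  obtain ⟨y, hy⟩ := exists_in (h.trans (semideg_le_in D x))
  have h1 := hs x y (fun hx => hO _ _ hx hx) (fun h2 => hO _ _ hy h2)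
  rcases Relation.ReflTransGen.cases_head h1 with h2 | ⟨z, h2, _⟩
  · subst h2
    exact hO _ _ hy hy
  · exact h2.2.2 h2.1

theorem conn_le_in [Finite V] {D : V → V → Prop} (hO : Oriented D) (h : 1 ≤ semideg D) (x : V) :
    conn D ≤ indeg D x := by
  refine conn_le (S := {y | D y x}) fun hs => ?_
  obtain ⟨y, hy⟩ := exists_out (h.trans (semideg_le_out D x))
  have h1 := hs y x (fun h2 => hO _ _ hy h2) (fun hx => hO _ _ hx hx)
  rcases Relation.ReflTransGen.cases_tail h1 with h2 | ⟨z, _, h2⟩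
  · subst h2
    exact hO _ _ hy hy
  · exact h2.2.1 h2.1

/-- The connectivity is at most the minimum semi-degree. -/
theorem conn_le_semideg [Finite V] {D : V → V → Prop} (hO : Oriented D) (h : 1 ≤ semideg D) :
    conn D ≤ semideg D := by
  have := nonempty_of_semideg h
  exact le_semideg D fun x => ⟨conn_le_out hO h x, conn_le_in hO h x⟩

/-! ## Lexicographic products -/

/-- The lexicographic product. -/
def lex (D : V → V → Prop) (H : W → W → Prop) (x y : V × W) : Prop :=
  D x.1 y.1 ∨ (x.1 = y.1 ∧ H x.2 y.2)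

theorem lex_oriented {D : V → V → Prop} {H : W → W → Prop} (hD : Oriented D) (hH : Oriented H) :
    Oriented (lex D H) := by
  rintro ⟨v, w⟩ ⟨v', w'⟩ (h | ⟨h, h'⟩) (h1 | ⟨h1, h1'⟩)
  · exact hD _ _ h h1
  · simp only at h1 h
    subst h1
    exact hD _ _ h h
  · simp only at h1 h
    subst h
    exact hD _ _ h1 h1
  · exact hH _ _ h' h1'

theorem lex_noTri {D : V → V → Prop} {H : W → W → Prop} (hO : Oriented D)
    (hD : ¬ HasTriangle D) (hH : ¬ HasTriangle H) : ¬ HasTriangle (lex D H) := by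
  rintro ⟨⟨v, w⟩, ⟨v', w'⟩, ⟨v'', w''⟩, h1, h2, h3⟩
  simp only [lex] at h1 h2 h3
  rcases h1 with h1 | ⟨rfl, h1⟩ <;> rcases h2 with h2 | ⟨rfl, h2⟩ <;>
    rcases h3 with h3 | ⟨h3', h3⟩
  · exact hD ⟨_, _, _, h1, h2, h3⟩
  · subst h3'; exact hO _ _ h1 h2
  · exact hO _ _ h1 h3
  · subst h3'; exact hO _ _ h1 h1
  · exact hO _ _ h2 h3
  · subst h3'; exact hO _ _ h2 h2
  · exact hO _ _ h3 h3
  · exact hH ⟨_, _, _, h1, h2, h3⟩

theorem lex_out [Finite V] [Finite W] {D : V → V → Prop} (hO : Oriented D) (H : W → W → Prop)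
    (x : V × W) : outdeg (lex D H) x = outdeg D x.1 * Nat.card W + outdeg H x.2 := by
  unfold outdeg
  have e : {y : V × W | lex D H x y} = ({y | D x.1 y} ×ˢ (Set.univ : Set W)) ∪
      ({x.1} ×ˢ {w | H x.2 w}) := by
    ext ⟨v, w⟩
    simp only [lex, Set.mem_setOf_eq, Set.mem_union, Set.mem_prod, Set.mem_univ, and_true,
      Set.mem_singleton_iff]
    constructor
    · rintro (h | ⟨h, h'⟩)
      · exact Or.inl h
      · exact Or.inr ⟨h.symm, h'⟩
    · rintro (h | ⟨h, h'⟩)
      · exact Or.inl h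
      · exact Or.inr ⟨h.symm, h'⟩
  rw [e, Set.ncard_union_eq, Set.ncard_prod, Set.ncard_prod, Set.ncard_univ,
    Set.ncard_singleton, one_mul]
  rw [Set.disjoint_left]
  rintro ⟨v, w⟩ ⟨h, _⟩ ⟨h', _⟩
  simp only [Set.mem_setOf_eq, Set.mem_singleton_iff] at h h'
  rw [h'] at h
  exact hO _ _ h h

theorem lex_in [Finite V] [Finite W] {D : V → V → Prop} (hO : Oriented D) (H : W → W → Prop)
    (x : V × W) : indeg (lex D H) x = indeg D x.1 * Nat.card W + indeg H x.2 := by
  unfold indeg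
  have e : {y : V × W | lex D H y x} = ({y | D y x.1} ×ˢ (Set.univ : Set W)) ∪
      ({x.1} ×ˢ {w | H w x.2}) := by
    ext ⟨v, w⟩
    simp only [lex, Set.mem_setOf_eq, Set.mem_union, Set.mem_prod, Set.mem_univ, and_true,
      Set.mem_singleton_iff]
  rw [e, Set.ncard_union_eq, Set.ncard_prod, Set.ncard_prod, Set.ncard_univ,
    Set.ncard_singleton, one_mul]
  rw [Set.disjoint_left]
  rintro ⟨v, w⟩ ⟨h, _⟩ ⟨h', _⟩
  simp only [Set.mem_setOf_eq, Set.mem_singleton_iff] at h h'
  rw [h'] at h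
  exact hO _ _ h h

theorem lex_semideg [Finite V] [Finite W] {D : V → V → Prop} (hO : Oriented D)
    {H : W → W → Prop} (hD : 1 ≤ semideg D) (hH : 1 ≤ semideg H) :
    semideg D * Nat.card W + semideg H ≤ semideg (lex D H) := by
  have := nonempty_of_semideg hD
  have := nonempty_of_semideg hH
  refine le_semideg _ fun x => ⟨?_, ?_⟩
  · rw [lex_out hO]
    exact add_le_add (Nat.mul_le_mul_right _ (semideg_le_out D x.1)) (semideg_le_out H x.2)
  · rw [lex_in hO]
    exact add_le_add (Nat.mul_le_mul_right _ (semideg_le_in D x.1)) (semideg_le_in H x.2)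

theorem lex_conn [Finite V] [Finite W] [Nonempty W] {D : V → V → Prop} (hO : Oriented D)
    (h : 1 ≤ semideg D) (H : W → W → Prop) : conn (lex D H) ≤ conn D * Nat.card W := by
  obtain ⟨S, hS, hcut⟩ := exists_cut hO h
  have h1 : ¬ StrongOff (lex D H) (S ×ˢ (Set.univ : Set W)) := by
    intro hs
    refine hcut fun x y hx hy => ?_
    obtain ⟨w⟩ := ‹Nonempty W›
    have h2 := hs (x, w) (y, w) (by simpa using hx) (by simpa using hy)
    have key : ∀ z : V × W, Relation.ReflTransGen (fun u v => lex D H u v ∧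
        u ∉ (S ×ˢ (Set.univ : Set W)) ∧ v ∉ (S ×ˢ (Set.univ : Set W))) (x, w) z →
        Relation.ReflTransGen (fun u v => D u v ∧ u ∉ S ∧ v ∉ S) x z.1 := by
      intro z hz
      induction hz with
      | refl => exact Relation.ReflTransGen.refl
      | @tail b c _ hbc ih =>
        obtain ⟨h3, h4, h5⟩ := hbc
        rw [Set.mem_prod, not_and_or] at h4 h5
        have h4' := h4.resolve_right (fun h => h trivial)
        have h5' := h5.resolve_right (fun h => h trivial)
        rcases h3 with h3 | ⟨h3, _⟩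
        · exact ih.tail ⟨h3, h4', h5'⟩
        · rw [← h3]
          exact ih
    exact key (y, w) h2
  refine (conn_le h1).trans (le_of_eq ?_)
  rw [Set.ncard_prod, Set.ncard_univ, hS]

/-! ## Blow-ups -/

/-- The vertices of the blow-up: `q` copies of the vertices in `S`, `p` copies of the others. -/
abbrev Bv (S : Set V) (p q : ℕ) : Type := {x : V × Fin p // x.1 ∈ S → (x.2 : ℕ) < q}

/-- The blow-up. -/
def bl (D : V → V → Prop) (S : Set V) (p q : ℕ) (x y : Bv S p q) : Prop := D x.1.1 y.1.1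

theorem bl_oriented {D : V → V → Prop} (hD : Oriented D) (S : Set V) (p q : ℕ) :
    Oriented (bl D S p q) := fun x y h h' => hD _ _ h h'

theorem bl_noTri {D : V → V → Prop} (hD : ¬ HasTriangle D) (S : Set V) (p q : ℕ) :
    ¬ HasTriangle (bl D S p q) := fun ⟨x, y, z, h1, h2, h3⟩ => hD ⟨_, _, _, h1, h2, h3⟩

theorem ncard_bl [Finite V] (S T : Set V) {p q : ℕ} (hq : q ≤ p) :
    {x : Bv S p q | x.1.1 ∈ T}.ncard = (T \ S).ncard * p + (T ∩ S).ncard * q := by
  have h1 : {x : Bv S p q | x.1.1 ∈ T}.ncard =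
      ({x : V × Fin p | x.1 ∈ T ∧ (x.1 ∈ S → (x.2 : ℕ) < q)} : Set (V × Fin p)).ncard := by
    rw [← Set.ncard_image_of_injective _ Subtype.val_injective]
    congr 1
    ext x
    simp only [Set.mem_image, Set.mem_setOf_eq, Subtype.exists, exists_and_left, exists_prop,
      exists_eq_right_right]
  rw [h1]
  have e : ({x : V × Fin p | x.1 ∈ T ∧ (x.1 ∈ S → (x.2 : ℕ) < q)} : Set (V × Fin p)) =
      ((T \ S) ×ˢ (Set.univ : Set (Fin p))) ∪ ((T ∩ S) ×ˢ {i : Fin p | (i : ℕ) < q}) := by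
    ext ⟨v, i⟩
    simp only [Set.mem_setOf_eq, Set.mem_union, Set.mem_prod, Set.mem_diff, Set.mem_univ,
      and_true, Set.mem_inter_iff]
    by_cases hv : v ∈ S <;> simp [hv]
  have h2 : ({i : Fin p | (i : ℕ) < q} : Set (Fin p)).ncard = q := by
    have e2 : ({i : Fin p | (i : ℕ) < q} : Set (Fin p)) = Set.range (Fin.castLE hq) := by
      ext i
      simp only [Set.mem_setOf_eq, Set.mem_range]
      constructor
      · intro h
        exact ⟨⟨i, h⟩, rfl⟩
      · rintro ⟨j, rfl⟩
        exact j.2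
    rw [e2, ← Set.image_univ, Set.ncard_image_of_injective _ (Fin.castLE_injective hq),
      Set.ncard_univ, Nat.card_eq_fintype_card, Fintype.card_fin]
  rw [e, Set.ncard_union_eq, Set.ncard_prod, Set.ncard_prod, Set.ncard_univ, h2,
    Nat.card_eq_fintype_card, Fintype.card_fin]
  rw [Set.disjoint_left]
  rintro ⟨v, w⟩ ⟨h, _⟩ ⟨h', _⟩
  exact h.2 h'.2

theorem bl_deg [Finite V] (S T : Set V) {p q m k : ℕ} (hq : q ≤ p) (hT : m ≤ T.ncard)
    (hS : S.ncard ≤ k) :
    p * m ≤ {x : Bv S p q | x.1.1 ∈ T}.ncard + (p - q) * k := by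
  rw [ncard_bl S T hq]
  have h1 : (T \ S).ncard + (T ∩ S).ncard = T.ncard := by
    rw [add_comm, Set.ncard_inter_add_ncard_diff_eq_ncard T S (Set.toFinite _)]
  have h2 : (T ∩ S).ncard ≤ k :=
    (Set.ncard_le_ncard Set.inter_subset_right (Set.toFinite _)).trans hS
  obtain ⟨r, rfl⟩ := Nat.exists_eq_add_of_le hq
  rw [Nat.add_sub_cancel_left]
  calc (q + r) * m ≤ (q + r) * T.ncard := Nat.mul_le_mul_left _ hT
    _ = (T \ S).ncard * (q + r) + (T ∩ S).ncard * q + r * (T ∩ S).ncard := by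
        rw [← h1]; ring
    _ ≤ (T \ S).ncard * (q + r) + (T ∩ S).ncard * q + r * k :=
        Nat.add_le_add_left (Nat.mul_le_mul_left _ h2) _

theorem bl_card [Fintype V] (S : Set V) {p q : ℕ} (hq : q ≤ p) [Fintype (Bv S p q)] :
    Fintype.card (Bv S p q) + (p - q) * S.ncard = p * Fintype.card V := by
  have h := ncard_bl S (Set.univ : Set V) hq
  have h1 : {x : Bv S p q | x.1.1 ∈ (Set.univ : Set V)} = Set.univ := by
    ext; simp
  rw [h1, Set.ncard_univ, Nat.card_eq_fintype_card, Set.univ_inter] at h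
  have h2 : ((Set.univ : Set V) \ S).ncard + S.ncard = Fintype.card V := by
    have := Set.ncard_inter_add_ncard_diff_eq_ncard (Set.univ : Set V) S (Set.toFinite _)
    rw [Set.univ_inter, Set.ncard_univ, Nat.card_eq_fintype_card] at this
    omega
  obtain ⟨r, rfl⟩ := Nat.exists_eq_add_of_le hq
  rw [Nat.add_sub_cancel_left, h, ← h2]
  ring

theorem bl_semideg [Finite V] {D : V → V → Prop} (S : Set V) {p q m : ℕ} (hq : q ≤ p)
    (hm : m + (p - q) * S.ncard ≤ p * semideg D) [Nonempty (Bv S p q)] :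
    m ≤ semideg (bl D S p q) := by
  refine le_semideg _ fun x => ⟨?_, ?_⟩
  · have := bl_deg S {y | D x.1.1 y} hq (semideg_le_out D x.1.1) le_rfl
    change m ≤ {y : Bv S p q | y.1.1 ∈ {y | D x.1.1 y}}.ncard
    omega
  · have := bl_deg S {y | D y x.1.1} hq (semideg_le_in D x.1.1) le_rfl
    change m ≤ {y : Bv S p q | y.1.1 ∈ {y | D y x.1.1}}.ncard
    omega

theorem bl_conn [Finite V] {D : V → V → Prop} {S : Set V} (hcut : ¬ StrongOff D S) {p q : ℕ}
    (hp : 1 ≤ p) (hq : q ≤ p) : conn (bl D S p q) ≤ S.ncard * q := by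
  have h1 : ¬ StrongOff (bl D S p q) {x | x.1.1 ∈ S} := by
    intro hs
    refine hcut fun x y hx hy => ?_
    have h2 := hs ⟨(x, ⟨0, hp⟩), fun h => absurd h hx⟩ ⟨(y, ⟨0, hp⟩), fun h => absurd h hy⟩
      hx hy
    have key : ∀ z : Bv S p q, Relation.ReflTransGen (fun u v => bl D S p q u v ∧
        u ∉ {x : Bv S p q | x.1.1 ∈ S} ∧ v ∉ {x : Bv S p q | x.1.1 ∈ S})
        ⟨(x, ⟨0, hp⟩), fun h => absurd h hx⟩ z →
        Relation.ReflTransGen (fun u v => D u v ∧ u ∉ S ∧ v ∉ S) x z.1.1 := by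
      intro z hz
      induction hz with
      | refl => exact Relation.ReflTransGen.refl
      | @tail b c _ hbc ih => exact ih.tail hbc
    exact key _ h2
  refine (conn_le h1).trans (le_of_eq ?_)
  rw [ncard_bl S S hq, Set.diff_self, Set.ncard_empty, zero_mul, zero_add, Set.inter_self]

end W_e01c10_h95
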