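import Pool.Agent.W_e01c10_h95.Constr

/-!
# The structure of the function `ψ`
-/

open Filter Topology

namespace W_e01c10_h95

open W_e01c10_h65

/-- The set of the admissible numbers. -/
def Adm (r : ℝ) : Set ℝ := {ψ : ℝ | 0 < ψ ∧ ψ ≤ 1 ∧ Admissible r ψ}

theorem psi_def (r : ℝ) : psi r = sSup (Adm r) := rfl

theorem bdd (r : ℝ) : BddAbove (Adm r) := ⟨1, fun _ h => h.2.1⟩

theorem psi_le_one (r : ℝ) : psi r ≤ 1 := Real.sSup_le (fun _ h => h.2.1) zero_le_one

theorem Admissible.mono {r r' ψ ψ' : ℝ} (h : Admissible r ψ) (hr : r' ≤ r) (hψ : ψ' ≤ ψ) :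
    Admissible r' ψ' := by
  intro V _ D d hd hO hD hn hk
  have hd0 : (0 : ℝ) ≤ d := Nat.cast_nonneg d
  exact h V D d hd hO hD (hn.trans (mul_le_mul_of_nonneg_right hr hd0))
    (hk.trans (mul_le_mul_of_nonneg_right hψ hd0))

theorem le_psi {r ψ : ℝ} (h0 : 0 < ψ) (h1 : ψ ≤ 1) (h : Admissible r ψ) : ψ ≤ psi r :=
  le_csSup (bdd r) ⟨h0, h1, h⟩

theorem psi_anti {r r' : ℝ} (h : r' ≤ r) : psi r ≤ psi r' :=
  Real.sSup_le (fun _ hψ => le_psi hψ.1 hψ.2.1 (Admissible.mono hψ.2.2 h le_rfl)) (psi_nonneg r')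

/-- A counterexample for `(r, κ)`. -/
structure Cex (r κ : ℝ) where
  /-- the vertices -/
  V : Type
  [inst : Fintype V]
  /-- the arcs -/
  D : V → V → Prop
  pos : 1 ≤ semideg D
  ori : Oriented D
  noTri : ¬ HasTriangle D
  card_le : (Fintype.card V : ℝ) ≤ r * semideg D
  conn_le : (conn D : ℝ) ≤ κ * semideg D

attribute [instance] Cex.inst

theorem exists_cex {r κ : ℝ} (h : ¬ Admissible r κ) : Nonempty (Cex r κ) := by
  unfold Admissible at h
  push Not at h
  obtain ⟨V, hV, D, d, hd, hO, hD, hn, hk, hT⟩ := h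
  subst hD
  exact ⟨{ V := V, inst := hV, D := D, pos := hd, ori := hO, noTri := hT, card_le := hn,
           conn_le := hk }⟩

theorem Cex.elim {r κ : ℝ} (c : Cex r κ) (h : Admissible r κ) : False :=
  c.noTri (h c.V c.D _ c.pos c.ori rfl c.card_le c.conn_le)

/-- The square of a counterexample is a counterexample for smaller numbers. -/
theorem Cex.sq {r κ : ℝ} (c : Cex r κ) : ∃ (V : Type) (_ : Fintype V) (D : V → V → Prop),
    1 ≤ semideg D ∧ Oriented D ∧ ¬ HasTriangle D ∧
    (Fintype.card V : ℝ) ≤ r * (Fintype.card c.V / (Fintype.card c.V + 1)) * semideg D ∧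
    (conn D : ℝ) ≤ κ * (Fintype.card c.V / (Fintype.card c.V + 1)) * semideg D := by
  have hne : Nonempty c.V := nonempty_of_semideg c.pos
  refine ⟨c.V × c.V, inferInstance, lex c.D c.D, ?_, lex_oriented c.ori c.ori,
    lex_noTri c.ori c.noTri c.noTri, ?_, ?_⟩
  · have h1 := lex_semideg (H := c.D) c.ori c.pos c.pos
    have h2 := c.pos
    have h3 : 1 ≤ semideg c.D * Nat.card c.V + semideg c.D := by omega
    exact h3.trans h1
  all_goals
    have h1 : ((semideg c.D * Nat.card c.V + semideg c.D : ℕ) : ℝ) ≤ semideg (lex c.D c.D) := by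
      exact_mod_cast lex_semideg (H := c.D) c.ori c.pos c.pos
    rw [Nat.card_eq_fintype_card] at h1
    push_cast at h1
    have hn0 : (0 : ℝ) < Fintype.card c.V := by
      exact_mod_cast Fintype.card_pos
    have hd0 : (0 : ℝ) < semideg c.D := by
      exact_mod_cast c.pos
    have hn1 : (0 : ℝ) < Fintype.card c.V + 1 := by linarith
  · have hr : 0 < r := by
      have := c.card_le
      by_contra hr
      push Not at hr
      nlinarith
    rw [Fintype.card_prod]
    push_cast
    calc (Fintype.card c.V : ℝ) * Fintype.card c.V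
        ≤ (r * semideg c.D) * Fintype.card c.V := by
          exact mul_le_mul_of_nonneg_right c.card_le hn0.le
      _ = r * (Fintype.card c.V / (Fintype.card c.V + 1)) *
          ((semideg c.D : ℝ) * Fintype.card c.V + semideg c.D) := by
          field_simp
      _ ≤ _ := mul_le_mul_of_nonneg_left h1 (by positivity)
  · have hκ : 0 ≤ κ := by
      have := c.conn_le
      have h0 : (0 : ℝ) ≤ conn c.D := Nat.cast_nonneg _
      by_contra hκ
      push Not at hκ
      nlinarith
    have h2 : (conn (lex c.D c.D) : ℝ) ≤ conn c.D * Fintype.card c.V := by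
      have := lex_conn c.ori c.pos c.D
      rw [Nat.card_eq_fintype_card] at this
      exact_mod_cast this
    calc (conn (lex c.D c.D) : ℝ) ≤ conn c.D * Fintype.card c.V := h2
      _ ≤ (κ * semideg c.D) * Fintype.card c.V := by
          exact mul_le_mul_of_nonneg_right c.conn_le hn0.le
      _ = κ * (Fintype.card c.V / (Fintype.card c.V + 1)) *
          ((semideg c.D : ℝ) * Fintype.card c.V + semideg c.D) := by
          field_simp
      _ ≤ _ := mul_le_mul_of_nonneg_left h1 (by positivity)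

theorem frac_lt {n : ℕ} : (n : ℝ) / (n + 1) < 1 := by
  rw [div_lt_one (by positivity)]
  linarith

theorem frac_nonneg {n : ℕ} : (0 : ℝ) ≤ (n : ℝ) / (n + 1) := by positivity

/-- The supremum is attained. -/
theorem admissible_psi {r : ℝ} (h : (Adm r).Nonempty) : Admissible r (psi r) := by
  by_contra hA
  obtain ⟨c⟩ := exists_cex hA
  obtain ⟨V, _, D, hpos, hO, hT, hn, hk⟩ := c.sq
  obtain ⟨ψ0, hψ0⟩ := h
  have hpsi : 0 < psi r := hψ0.1.trans_le (le_psi hψ0.1 hψ0.2.1 hψ0.2.2)
  have hf : (Fintype.card c.V : ℝ) / (Fintype.card c.V + 1) < 1 := frac_lt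
  have hf0 : (0 : ℝ) ≤ (Fintype.card c.V : ℝ) / (Fintype.card c.V + 1) := frac_nonneg
  have hlt : psi r * (Fintype.card c.V / (Fintype.card c.V + 1)) < psi r := by nlinarith
  obtain ⟨ψ2, h2, h3⟩ := exists_lt_of_lt_csSup ⟨ψ0, hψ0⟩ (show _ < sSup (Adm r) from hlt)
  have hd0 : (0 : ℝ) ≤ semideg D := Nat.cast_nonneg _
  have hr : 0 ≤ r := by
    have h1 := c.card_le
    have h2 : (0 : ℝ) ≤ Fintype.card c.V := Nat.cast_nonneg _
    have h3 : (1 : ℝ) ≤ semideg c.D := by exact_mod_cast c.pos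
    by_contra hr
    push Not at hr
    nlinarith
  refine hT (h2.2.2 V D _ hpos hO rfl (hn.trans ?_) (hk.trans ?_))
  · exact mul_le_mul_of_nonneg_right (by nlinarith) hd0
  · exact mul_le_mul_of_nonneg_right h3.le hd0

/-- `ψ(r) = 1` exactly if all oriented graphs of order at most `r δ⁰` have triangles. -/
theorem psi_eq_one {r : ℝ} : psi r = 1 ↔ ∀ (V : Type) [Fintype V] (D : V → V → Prop),
    Oriented D → 1 ≤ semideg D → (Fintype.card V : ℝ) ≤ r * semideg D → HasTriangle D := by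
  constructor
  · intro h V _ D hO hD hn
    have hne : (Adm r).Nonempty := by
      by_contra hne
      rw [Set.not_nonempty_iff_eq_empty] at hne
      rw [psi_def, hne, Real.sSup_empty] at h
      exact zero_ne_one h
    have h1 := admissible_psi hne
    rw [h] at h1
    refine h1 V D _ hD hO rfl hn ?_
    rw [one_mul]
    exact_mod_cast conn_le_semideg hO hD
  · intro h
    refine le_antisymm (psi_le_one r) (le_psi one_pos le_rfl ?_)
    intro V _ D d hd hO hD hn _
    subst hD
    exact h V D hO hd hn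

/-- Left continuity. -/
theorem psi_left {r : ℝ} : ContinuousWithinAt psi (Set.Iic r) r := by
  rw [Metric.continuousWithinAt_iff]
  intro ε hε
  by_cases h1 : psi r + ε / 2 < 1
  · have hA : ¬ Admissible r (psi r + ε / 2) := by
      intro hA
      have := le_psi (by have := psi_nonneg r; linarith) h1.le hA
      linarith
    obtain ⟨c⟩ := exists_cex hA
    obtain ⟨V, _, D, hpos, hO, hT, hn, hk⟩ := c.sq
    have hf : (Fintype.card c.V : ℝ) / (Fintype.card c.V + 1) < 1 := frac_lt
    have hf0 : (0 : ℝ) ≤ (Fintype.card c.V : ℝ) / (Fintype.card c.V + 1) := frac_nonneg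
    set f := (Fintype.card c.V : ℝ) / (Fintype.card c.V + 1) with hfdef
    have hr : 0 < r := by
      have hne : Nonempty c.V := nonempty_of_semideg c.pos
      have h1 := c.card_le
      have h2 : (0 : ℝ) < Fintype.card c.V := by exact_mod_cast Fintype.card_pos
      have h3 : (1 : ℝ) ≤ semideg c.D := by exact_mod_cast c.pos
      by_contra hr
      push Not at hr
      nlinarith
    have hd0 : (0 : ℝ) ≤ semideg D := Nat.cast_nonneg _
    have hκ0 : 0 ≤ psi r + ε / 2 := by have := psi_nonneg r; linarith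
    refine ⟨r - r * f, by nlinarith, fun {r1} hr1 hdist => ?_⟩
    have hr1' : r1 ≤ r := hr1
    rw [Real.dist_eq, abs_sub_comm, abs_of_nonneg (by linarith)] at hdist
    have hnot : ¬ Admissible r1 (psi r + ε / 2) := by
      intro hA1
      refine hT (hA1 V D _ hpos hO rfl (hn.trans ?_) (hk.trans ?_))
      · exact mul_le_mul_of_nonneg_right (by linarith) hd0
      · exact mul_le_mul_of_nonneg_right (by nlinarith) hd0
    have h2 : psi r1 ≤ psi r + ε / 2 := by
      refine Real.sSup_le (fun ψ hψ => ?_) hκ0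
      by_contra hlt
      push Not at hlt
      exact hnot (Admissible.mono hψ.2.2 le_rfl hlt.le)
    have h3 := psi_anti hr1'
    rw [Real.dist_eq, abs_of_nonneg (by linarith)]
    linarith
  · refine ⟨1, one_pos, fun {r1} hr1 _ => ?_⟩
    have h3 := psi_anti (show r1 ≤ r from hr1)
    have h4 := psi_le_one r1
    rw [Real.dist_eq, abs_of_nonneg (by linarith)]
    linarith

/-- The choice of the weights `p` and `p - a`. -/
theorem weights {n d k r r' ψ κ : ℝ} (hd : 0 < d) (hk0 : 0 < k) (hψ0 : 0 < ψ) (hψ1 : ψ < 1)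
    (hr : 0 < r - 1) (hrr : r' ≤ r) (hκ1 : κ ≤ 1) (hκ : (κ - ψ) * (r - 1) = (1 - ψ) * (r - r'))
    (hn : n < r' * d) (hk : k < κ * d) (hc : ψ * d < k) :
    ∃ p a : ℕ, 0 < p ∧ a ≤ p ∧ (a : ℝ) * k < p * d ∧
      (p : ℝ) * n - a * k ≤ r * (p * d - a * k) ∧ k * (p - a) ≤ ψ * (p * d - a * k) := by
  have hkd : k < d := by nlinarith
  have h1ψ : 0 < 1 - ψ := by linarith
  have e1 : (k - ψ * d) * (r - 1) < (1 - ψ) * (r - r') * d := by
    calc (k - ψ * d) * (r - 1) < (κ * d - ψ * d) * (r - 1) := by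
          exact mul_lt_mul_of_pos_right (by linarith) hr
      _ = ((κ - ψ) * (r - 1)) * d := by ring
      _ = _ := by rw [hκ]
  have e2 : (1 - ψ) * (r - r') * d < (r * d - n) * (1 - ψ) := by
    have : (r - r') * d < r * d - n := by nlinarith
    calc (1 - ψ) * (r - r') * d = ((r - r') * d) * (1 - ψ) := by ring
      _ < _ := mul_lt_mul_of_pos_right this h1ψ
  have ht : (k - ψ * d) / ((1 - ψ) * k) < min ((r * d - n) / ((r - 1) * k)) 1 := by
    rw [lt_min_iff]
    constructor
    · rw [div_lt_div_iff₀ (by positivity) (by positivity)]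
      have e3 : (k - ψ * d) * (r - 1) < (r * d - n) * (1 - ψ) := e1.trans e2
      have e4 := mul_lt_mul_of_pos_right e3 hk0
      calc (k - ψ * d) * ((r - 1) * k) = (k - ψ * d) * (r - 1) * k := by ring
        _ < (r * d - n) * (1 - ψ) * k := e4
        _ = _ := by ring
    · rw [div_lt_one (by positivity)]
      nlinarith
  obtain ⟨t, ht1, ht2⟩ := exists_rat_btwn ht
  rw [lt_min_iff] at ht2
  obtain ⟨ht2, ht3⟩ := ht2
  have ht0 : (0 : ℝ) < t := lt_trans (div_pos (by linarith) (by positivity)) ht1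
  rw [div_lt_iff₀ (by positivity)] at ht1
  rw [lt_div_iff₀ (by positivity)] at ht2
  have htq0 : (0 : ℚ) < t := by exact_mod_cast ht0
  obtain ⟨a, ha⟩ : ∃ a : ℕ, (a : ℤ) = t.num :=
    ⟨t.num.toNat, Int.toNat_of_nonneg (Rat.num_pos.2 htq0).le⟩
  have hpp : 0 < t.den := t.den_pos
  have hta : (t : ℝ) * (t.den : ℝ) = a := by
    have h2 : t * (t.den : ℚ) = (t.num : ℚ) := Rat.mul_den_eq_num t
    rw [← ha] at h2
    exact_mod_cast h2
  have hpR : (0 : ℝ) < t.den := by exact_mod_cast hpp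
  refine ⟨t.den, a, hpp, ?_, ?_, ?_, ?_⟩
  · have : (a : ℝ) ≤ t.den := by rw [← hta]; nlinarith
    exact_mod_cast this
  · rw [← hta]
    calc (t : ℝ) * t.den * k < 1 * t.den * k :=
          mul_lt_mul_of_pos_right (mul_lt_mul_of_pos_right ht3 hpR) hk0
      _ = t.den * k := by ring
      _ < t.den * d := mul_lt_mul_of_pos_left hkd hpR
  · rw [← hta]
    have e4 : (t.den : ℝ) * ((t : ℝ) * ((r - 1) * k)) ≤ t.den * (r * d - n) :=
      mul_le_mul_of_nonneg_left ht2.le hpR.le
    linear_combination e4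
  · rw [← hta]
    have e4 : (t.den : ℝ) * (k - ψ * d) ≤ t.den * ((t : ℝ) * ((1 - ψ) * k)) :=
      mul_le_mul_of_nonneg_left ht1.le hpR.le
    linear_combination e4

/-- Graphs obtained from a graph by giving the weight `p` to the vertices outside a minimum cut
and the weight `p - a` to the vertices in the cut. -/
theorem exists_bl {V : Type} [Fintype V] {D : V → V → Prop} (hO : Oriented D)
    (hpos : 1 ≤ semideg D) (hT : ¬ HasTriangle D) {p a : ℕ} (hp : 0 < p) (ha : a ≤ p)
    (h : a * conn D < p * semideg D) :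
    ∃ (W : Type) (_ : Fintype W) (E : W → W → Prop), Oriented E ∧ ¬ HasTriangle E ∧
      1 ≤ semideg E ∧ (p : ℝ) * semideg D - a * conn D ≤ semideg E ∧
      (Fintype.card W : ℝ) = p * Fintype.card V - a * conn D ∧
      (conn E : ℝ) ≤ conn D * (p - a) := by
  classical
  obtain ⟨S, hS, hcut⟩ := exists_cut hO hpos
  have hqp : p - a ≤ p := Nat.sub_le _ _
  have hpq : p - (p - a) = a := by omega
  obtain ⟨m, hm⟩ := Nat.exists_eq_add_of_le (Nat.succ_le_of_lt h)
  have hfin : Fintype (Bv S p (p - a)) := Fintype.ofFinite _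
  have hcard := bl_card (V := V) S hqp
  rw [hpq, hS] at hcard
  have hdn : semideg D < Fintype.card V := by
    obtain ⟨x⟩ := nonempty_of_semideg hpos
    refine (semideg_le_out D x).trans_lt ?_
    unfold outdeg
    rw [← Nat.card_eq_fintype_card, ← Set.ncard_univ]
    apply Set.ncard_lt_ncard _ (Set.toFinite _)
    rw [Set.ssubset_univ_iff]
    intro hu
    have : x ∈ {y | D x y} := by rw [hu]; trivial
    exact hO _ _ this this
  have hne : Nonempty (Bv S p (p - a)) := by
    rw [← Fintype.card_pos_iff]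
    have h3 : p * semideg D ≤ p * Fintype.card V := Nat.mul_le_mul_left _ hdn.le
    omega
  have hsemi : 1 + m ≤ semideg (bl D S p (p - a)) := by
    refine bl_semideg S hqp ?_
    rw [hpq, hS]
    omega
  have hconn := bl_conn (D := D) hcut hp hqp
  rw [hS] at hconn
  refine ⟨Bv S p (p - a), hfin, bl D S p (p - a), bl_oriented hO S p _, bl_noTri hT S p _,
    (Nat.le_add_right 1 m).trans hsemi, ?_, ?_, ?_⟩
  · have h1 : ((1 + m : ℕ) : ℝ) ≤ semideg (bl D S p (p - a)) := by exact_mod_cast hsemi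
    have h2 : ((p * semideg D : ℕ) : ℝ) = ((a * conn D + (1 + m) : ℕ) : ℝ) := by
      rw [hm]; congr 1; omega
    push_cast at h1 h2
    linarith
  · have h2 : ((Fintype.card (Bv S p (p - a)) + a * conn D : ℕ) : ℝ) =
        ((p * Fintype.card V : ℕ) : ℝ) := by
      rw [hcard]
    push_cast at h2
    linarith
  · have h2 : (conn (bl D S p (p - a)) : ℝ) ≤ ((conn D * (p - a) : ℕ) : ℝ) := by
      exact_mod_cast hconn
    rw [Nat.cast_mul, Nat.cast_sub ha] at h2
    exact h2

/-- The monotonicity of `(1 - ψ(r)) / (r - 1)`. -/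
theorem psi_law {r r' : ℝ} (h1 : 1 < r') (hrr : r' ≤ r) (h : (Adm r).Nonempty) :
    (1 - psi r') / (r' - 1) ≤ (1 - psi r) / (r - 1) := by
  have hA := admissible_psi h
  obtain ⟨ψ0, hψ0⟩ := h
  have hpsi : 0 < psi r := hψ0.1.trans_le (le_psi hψ0.1 hψ0.2.1 hψ0.2.2)
  have hpsi1 := psi_le_one r
  obtain ⟨ψ, hψdef⟩ : ∃ ψ, ψ = psi r := ⟨_, rfl⟩
  rw [← hψdef] at hA hpsi hpsi1 ⊢
  have hr : 0 < r - 1 := by linarith
  have hr' : 0 < r' - 1 := by linarith
  have hle1 : (r' - 1) * (1 - ψ) / (r - 1) ≤ 1 - ψ := by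
    rw [div_le_iff₀ hr]
    nlinarith
  have hge0 : 0 ≤ (r' - 1) * (1 - ψ) / (r - 1) := by
    apply div_nonneg _ hr.le
    nlinarith
  obtain ⟨κ, hκ⟩ : ∃ κ : ℝ, κ = 1 - (r' - 1) * (1 - ψ) / (r - 1) := ⟨_, rfl⟩
  have hκψ : ψ ≤ κ := by rw [hκ]; linarith
  have hκ1 : κ ≤ 1 := by rw [hκ]; linarith
  have hκdiff : (κ - ψ) * (r - 1) = (1 - ψ) * (r - r') := by
    rw [hκ]; field_simp; ring
  suffices hκA : Admissible r' κ by
    have h2 := le_psi (hpsi.trans_le hκψ) hκ1 hκA
    rw [div_le_iff₀ hr']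
    have : (1 - ψ) / (r - 1) * (r' - 1) = 1 - κ := by rw [hκ]; ring
    rw [this]
    linarith
  by_contra hnA
  obtain ⟨c⟩ := exists_cex hnA
  obtain ⟨V, _, D, hpos, hO, hT, hn, hk⟩ := c.sq
  have hf : (Fintype.card c.V : ℝ) / (Fintype.card c.V + 1) < 1 := frac_lt
  have hd0 : (0 : ℝ) < semideg D := by exact_mod_cast hpos
  have hn' : (Fintype.card V : ℝ) < r' * semideg D := by
    refine lt_of_le_of_lt hn (mul_lt_mul_of_pos_right ?_ hd0)
    exact mul_lt_of_lt_one_right (by linarith) hf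
  have hk' : (conn D : ℝ) < κ * semideg D := by
    refine lt_of_le_of_lt hk (mul_lt_mul_of_pos_right ?_ hd0)
    exact mul_lt_of_lt_one_right (by linarith) hf
  by_cases hcase : (conn D : ℝ) ≤ ψ * semideg D
  · exact hT (hA V D _ hpos hO rfl (hn'.le.trans (mul_le_mul_of_nonneg_right hrr hd0.le)) hcase)
  push Not at hcase
  have hψ1 : ψ < 1 := by
    have h2 : ψ * (semideg D : ℝ) < 1 * semideg D :=
      (hcase.trans hk').trans_le (mul_le_mul_of_nonneg_right hκ1 hd0.le)
    exact lt_of_mul_lt_mul_right h2 hd0.le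
  have hkpos : (0 : ℝ) < conn D := lt_of_le_of_lt (by positivity) hcase
  obtain ⟨p, a, hp, ha, h3, h4, h5⟩ := weights hd0 hkpos hpsi hψ1 hr hrr hκ1 hκdiff hn' hk' hcase
  have h3' : a * conn D < p * semideg D := by exact_mod_cast h3
  obtain ⟨W, _, E, hEO, hET, hE1, hE2, hE3, hE4⟩ := exists_bl hO hpos hT hp ha h3'
  refine hET (hA W E _ hE1 hEO rfl ?_ ?_)
  · rw [hE3]
    exact h4.trans (mul_le_mul_of_nonneg_left hE2 (by linarith))
  · exact hE4.trans (h5.trans (mul_le_mul_of_nonneg_left hE2 hpsi.le))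

end W_e01c10_h95
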